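import Pool.Agent.H12R3.VR.Stmts

set_option autoImplicit false

/-! Flow of an affine vector field (project H12-VR, TaskODE). -/

namespace H12VR.ODE170

open Filter Topology H12VR NormedSpace

abbrev E3 := ℝ × ℝ × ℝ

/-- the linear vector field on `ℝ³` extending the affine field -/
noncomputable def A (X : Fin 6 → ℝ) : E3 →L[ℝ] E3 :=
  (X 0 • ContinuousLinearMap.fst ℝ ℝ (ℝ × ℝ) +
    X 1 • (ContinuousLinearMap.fst ℝ ℝ ℝ).comp (ContinuousLinearMap.snd ℝ ℝ (ℝ × ℝ)) +
    X 2 • (ContinuousLinearMap.snd ℝ ℝ ℝ).comp (ContinuousLinearMap.snd ℝ ℝ (ℝ × ℝ))).prod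
  ((X 3 • ContinuousLinearMap.fst ℝ ℝ (ℝ × ℝ) +
    X 4 • (ContinuousLinearMap.fst ℝ ℝ ℝ).comp (ContinuousLinearMap.snd ℝ ℝ (ℝ × ℝ)) +
    X 5 • (ContinuousLinearMap.snd ℝ ℝ ℝ).comp (ContinuousLinearMap.snd ℝ ℝ (ℝ × ℝ))).prod 0)

lemma A_apply (X : Fin 6 → ℝ) (v : E3) : A X v =
    (X 0 * v.1 + X 1 * v.2.1 + X 2 * v.2.2, X 3 * v.1 + X 4 * v.2.1 + X 5 * v.2.2, 0) := by
  simp [A]

/-- the lift of a point -/
def li (p : ℝ × ℝ) : E3 := (p.1, p.2, 1)

/-- the exponential flow -/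
noncomputable def ex (X : Fin 6 → ℝ) (t : ℝ) : E3 →L[ℝ] E3 := exp (t • A X)

lemma ex_zero (X : Fin 6 → ℝ) : ex X 0 = 1 := by simp [ex]

lemma ex_add (X : Fin 6 → ℝ) (s t : ℝ) : ex X (s + t) = ex X s * ex X t := by
  let _ : NormedAlgebra ℚ (E3 →L[ℝ] E3) := NormedAlgebra.restrictScalars ℚ ℝ _
  unfold ex
  rw [add_smul]
  exact exp_add_of_commute (((Commute.refl (A X)).smul_left s).smul_right t)

lemma ex_deriv (X : Fin 6 → ℝ) (v : E3) (t : ℝ) :
    HasDerivAt (fun t => ex X t v) (A X (ex X t v)) t := by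
  have h := hasDerivAt_exp_smul_const' (𝕂 := ℝ) (A X) t
  exact h.clm_apply (hasDerivAt_const t v) |>.congr_deriv (by simp [ex])

lemma ex_third (X : Fin 6 → ℝ) (v : E3) (t : ℝ) : (ex X t v).2.2 = v.2.2 := by
  have h : ∀ t, HasDerivAt (fun t => (ex X t v).2.2) 0 t := by
    intro t
    have h1 := ((ex_deriv X v t).snd).snd
    rw [A_apply] at h1
    exact h1
  have h2 := is_const_of_deriv_eq_zero (fun t => (h t).differentiableAt) (fun t => (h t).deriv) t 0
  rw [ex_zero] at h2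
  simpa using h2

lemma A_li (X : Fin 6 → ℝ) (p : ℝ × ℝ) : A X (li p) = ((fd X p).1, (fd X p).2, 0) := by
  rw [A_apply]
  simp [li, fd]

theorem taskODE : TaskODE := by
  intro X
  refine ⟨fun t p => ((ex X t (li p)).1, (ex X t (li p)).2.1), ?_, ?_, ?_, ?_, ?_⟩
  · intro p
    simp only
    rw [ex_zero]
    simp [li]
  · intro s t p
    have h : li ((ex X t (li p)).1, (ex X t (li p)).2.1) = ex X t (li p) := by
      refine Prod.ext rfl (Prod.ext rfl ?_)
      exact (ex_third X (li p) t).symm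
    simp only [h]
    rw [ex_add]
    rfl
  · have h1 : Continuous (fun q : ℝ × ℝ × ℝ => ex X q.1 (li q.2)) := by
      unfold ex li
      have h3 : Continuous (fun t : ℝ => exp (t • A X)) :=
        continuous_iff_continuousAt.2 fun t =>
          (hasDerivAt_exp_smul_const' (𝕂 := ℝ) (A X) t).continuousAt
      have h2 : Continuous (fun q : ℝ × ℝ × ℝ => exp (q.1 • A X)) := h3.comp continuous_fst
      exact h2.clm_apply (by fun_prop)
    exact (h1.fst).prodMk (h1.snd.fst)
  · intro p t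
    have h := ex_deriv X (li p) t
    have h1 : li ((ex X t (li p)).1, (ex X t (li p)).2.1) = ex X t (li p) := by
      refine Prod.ext rfl (Prod.ext rfl ?_)
      exact (ex_third X (li p) t).symm
    rw [← h1, A_li] at h
    exact h.fst.prodMk h.snd.fst
  · intro γ hγ t
    have h1 : ∀ t, HasDerivAt (fun t => li (γ t)) (A X (li (γ t))) t := by
      intro t
      rw [A_li]
      have e1 : HasDerivAt (fun t => (γ t).1) (fd X (γ t)).1 t := (hγ t).fst
      have e2 : HasDerivAt (fun t => (γ t).2) (fd X (γ t)).2 t := (hγ t).snd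
      exact e1.prodMk (e2.prodMk (hasDerivAt_const t (1 : ℝ)))
    have h2 : (fun t => li (γ t)) = fun t => ex X t (li (γ 0)) := by
      refine ODE_solution_unique_univ (v := fun _ => A X) (s := fun _ => Set.univ)
        (K := ‖A X‖₊) (t₀ := 0) ?_ ?_ ?_ ?_
      · intro t
        exact (A X).lipschitz.lipschitzOnWith
      · intro t
        exact ⟨h1 t, trivial⟩
      · intro t
        exact ⟨ex_deriv X _ t, trivial⟩
      · rw [ex_zero]
        rfl
    have h3 : li (γ t) = ex X t (li (γ 0)) := congrFun h2 t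
    simp only
    rw [← h3]
    rfl

end H12VR.ODE170
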